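import Pool.Agent.Helper63.GW.StB

set_option autoImplicit false

namespace Pool.Agent.Helper14.GW

open Pool.Agent.Helper63.GW MeasureTheory

/-- the Gaussian window -/
private noncomputable def E (W c s : ℝ) : ℝ := Real.exp (-((s - c) / W) ^ 2)

private noncomputable def P (W : ℝ) (F : ℝ → ℝ) (c : ℝ) : ℝ := ∫ s : ℝ, F s * E W c s

private lemma E_nonneg (W c s : ℝ) : 0 ≤ E W c s := (Real.exp_pos _).le

private lemma E_le_one (W c s : ℝ) : E W c s ≤ 1 := by
  unfold E
  rw [Real.exp_le_one_iff]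
  have := sq_nonneg ((s - c) / W)
  linarith

private lemma E_cont (W : ℝ) : Continuous (fun p : ℝ × ℝ => E W p.1 p.2) := by
  unfold E
  fun_prop

private lemma E_meas (W c : ℝ) : Measurable (fun s => E W c s) := by
  unfold E
  fun_prop

private lemma E_int (W c : ℝ) (hW : 1 ≤ W) : ∫ s : ℝ, E W c s = √Real.pi * W := by
  unfold E
  have h1 : (fun s : ℝ => Real.exp (-((s - c) / W) ^ 2)) =
      fun s : ℝ => (fun y => Real.exp (-(1 / W ^ 2) * y ^ 2)) (s - c) := by
    funext s
    congr 1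
    field_simp
  rw [h1, integral_sub_right_eq_self (fun y : ℝ => Real.exp (-(1 / W ^ 2) * y ^ 2)) c,
    integral_gaussian]
  have hW0 : 0 < W := by linarith
  rw [show Real.pi / (1 / W ^ 2) = Real.pi * W ^ 2 by field_simp]
  rw [Real.sqrt_mul Real.pi_pos.le, Real.sqrt_sq hW0.le]

private lemma E_integrable (W c : ℝ) (hW : 1 ≤ W) : Integrable (fun s => E W c s) := by
  have hW0 : 0 < W := by linarith
  have h := (integrable_exp_neg_mul_sq (b := 1 / W ^ 2) (by positivity)).comp_sub_right c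
  refine h.congr (Filter.Eventually.of_forall fun s => ?_)
  unfold E
  simp only
  congr 1
  field_simp

private lemma E_symm (W c s : ℝ) : E W c s = E W s c := by
  unfold E
  congr 1
  ring

private lemma E_int' (W s : ℝ) (hW : 1 ≤ W) : ∫ c : ℝ, E W c s = √Real.pi * W := by
  rw [← E_int W s hW]
  exact integral_congr_ae (Filter.Eventually.of_forall fun c => E_symm W c s)

private lemma FE_integrable {F : ℝ → ℝ} (hF : Integrable F) (W c : ℝ) :
    Integrable (fun s => F s * E W c s) := by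
  refine hF.mul_bdd (c := 1) (E_meas W c).aestronglyMeasurable
    (Filter.Eventually.of_forall fun s => ?_)
  rw [Real.norm_eq_abs, abs_of_nonneg (E_nonneg W c s)]
  exact E_le_one W c s

private lemma P_nonneg {F : ℝ → ℝ} (hF : ∀ s, 0 ≤ F s) (W c : ℝ) : 0 ≤ P W F c :=
  integral_nonneg fun s => mul_nonneg (hF s) (E_nonneg W c s)

private lemma P_le {F : ℝ → ℝ} (hF : ∀ s, 0 ≤ F s) (hi : Integrable F) (W c : ℝ) :
    P W F c ≤ ∫ s, F s := by
  refine integral_mono (FE_integrable hi W c) hi fun s => ?_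
  exact mul_le_of_le_one_right (hF s) (E_le_one W c s)

private lemma prod_integrable {F : ℝ → ℝ} (hm : Measurable F) (hF : ∀ s, 0 ≤ F s)
    (hi : Integrable F) (W : ℝ) (hW : 1 ≤ W) :
    Integrable (fun p : ℝ × ℝ => F p.2 * E W p.1 p.2) (volume.prod volume) := by
  have hmeas : Measurable (fun p : ℝ × ℝ => F p.2 * E W p.1 p.2) :=
    (hm.comp measurable_snd).mul (E_cont W).measurable
  rw [integrable_prod_iff' hmeas.aestronglyMeasurable]
  refine ⟨Filter.Eventually.of_forall fun s => ?_, ?_⟩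
  · have : Integrable (fun c => E W c s) := by
      refine (E_integrable W s hW).congr (Filter.Eventually.of_forall fun c => ?_)
      exact (E_symm W c s).symm
    exact this.const_mul (F s)
  · have h1 : (fun s => ∫ c, ‖F s * E W c s‖) = fun s => F s * (√Real.pi * W) := by
      funext s
      rw [← E_int' W s hW, ← integral_const_mul]
      refine integral_congr_ae (Filter.Eventually.of_forall fun c => ?_)
      simp only
      rw [Real.norm_eq_abs, abs_of_nonneg (mul_nonneg (hF s) (E_nonneg W c s))]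
    simp only
    rw [h1]
    exact hi.mul_const _

private lemma P_integrable {F : ℝ → ℝ} (hm : Measurable F) (hF : ∀ s, 0 ≤ F s)
    (hi : Integrable F) (W : ℝ) (hW : 1 ≤ W) : Integrable (fun c => P W F c) :=
  (prod_integrable hm hF hi W hW).integral_prod_left

private lemma P_integral {F : ℝ → ℝ} (hm : Measurable F) (hF : ∀ s, 0 ≤ F s)
    (hi : Integrable F) (W : ℝ) (hW : 1 ≤ W) :
    ∫ c, P W F c = √Real.pi * W * ∫ s, F s := by
  unfold P
  rw [integral_integral_swap (f := fun c s => F s * E W c s) (prod_integrable hm hF hi W hW)]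
  rw [← integral_const_mul]
  refine integral_congr_ae (Filter.Eventually.of_forall fun s => ?_)
  simp only
  rw [integral_const_mul, E_int' W s hW]
  ring

private lemma P_sq_integrable {F : ℝ → ℝ} (hm : Measurable F) (hF : ∀ s, 0 ≤ F s)
    (hi : Integrable F) (W : ℝ) (hW : 1 ≤ W) : Integrable (fun c => P W F c ^ 2) := by
  have hP := P_integrable hm hF hi W hW
  refine (hP.const_mul (∫ s, F s)).mono' (hP.aestronglyMeasurable.pow 2)
    (Filter.Eventually.of_forall fun c => ?_)
  rw [Real.norm_eq_abs, abs_of_nonneg (sq_nonneg _), sq]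
  exact mul_le_mul_of_nonneg_right (P_le hF hi W c) (P_nonneg hF W c)

private lemma NQ_eq (W : ℝ) (F : ℝ → ℝ) : NQ W F = (1 / W) * ∫ c : ℝ, P W F c ^ 2 := rfl

private lemma sq_NF {F : ℝ → ℝ} (hF : NF F) : NF (fun s => F s ^ 2) := by
  obtain ⟨hm, hn, ⟨B, hB⟩, hi⟩ := hF
  have hB0 : 0 ≤ B := le_trans (hn 0) (hB 0)
  refine ⟨hm.pow_const 2, fun s => sq_nonneg _, ⟨B ^ 2, fun s => ?_⟩, ?_⟩
  · exact pow_le_pow_left₀ (hn s) (hB s) 2
  · refine (hi.const_mul B).mono' (hm.pow_const 2).aestronglyMeasurable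
      (Filter.Eventually.of_forall fun s => ?_)
    rw [Real.norm_eq_abs, abs_of_nonneg (sq_nonneg _), sq]
    exact mul_le_mul_of_nonneg_right (hB s) (hn s)

private lemma mul_NF {F G : ℝ → ℝ} (hF : NF F) (hG : NF G) : NF (fun s => F s * G s) := by
  obtain ⟨hm, hn, ⟨B, hB⟩, hi⟩ := hF
  obtain ⟨hm', hn', ⟨B', hB'⟩, hi'⟩ := hG
  have hB0 : 0 ≤ B := le_trans (hn 0) (hB 0)
  refine ⟨hm.mul hm', fun s => mul_nonneg (hn s) (hn' s), ⟨B * B', fun s => ?_⟩, ?_⟩
  · exact mul_le_mul (hB s) (hB' s) (hn' s) hB0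
  · refine (hi'.const_mul B).mono' (hm.mul hm').aestronglyMeasurable
      (Filter.Eventually.of_forall fun s => ?_)
    rw [Real.norm_eq_abs, abs_of_nonneg (mul_nonneg (hn s) (hn' s))]
    exact mul_le_mul_of_nonneg_right (hB s) (hn' s)

/-- Cauchy–Schwarz with a weight -/
private lemma cs_weight (A B w : ℝ → ℝ) (hw : ∀ s, 0 ≤ w s)
    (h1 : Integrable (fun s => A s ^ 2 * w s)) (h2 : Integrable (fun s => B s ^ 2 * w s))
    (h3 : Integrable (fun s => A s * B s * w s)) :
    (∫ s, A s * B s * w s) ^ 2 ≤ (∫ s, A s ^ 2 * w s) * ∫ s, B s ^ 2 * w s := by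
  have key : ∀ x : ℝ, 0 ≤ (∫ s, B s ^ 2 * w s) * (x * x) + (-2 * ∫ s, A s * B s * w s) * x +
      ∫ s, A s ^ 2 * w s := by
    intro x
    have h4 : 0 ≤ ∫ s, (A s - x * B s) ^ 2 * w s :=
      integral_nonneg fun s => mul_nonneg (sq_nonneg _) (hw s)
    have h5 : ∫ s, (A s - x * B s) ^ 2 * w s = (∫ s, B s ^ 2 * w s) * (x * x) +
        (-2 * ∫ s, A s * B s * w s) * x + ∫ s, A s ^ 2 * w s := by
      have h6 : (fun s => (A s - x * B s) ^ 2 * w s) =
          fun s => ((x * x) * (B s ^ 2 * w s) + (-2 * x) * (A s * B s * w s)) + A s ^ 2 * w s := by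
        funext s; ring
      have h7 : Integrable (fun s => (x * x) * (B s ^ 2 * w s) + (-2 * x) * (A s * B s * w s)) :=
        (h2.const_mul _).add (h3.const_mul _)
      rw [h6, integral_add h7 h1,
        integral_add (h2.const_mul _) (h3.const_mul _), integral_const_mul, integral_const_mul]
      ring
    rw [h5] at h4
    exact h4
  have hd := discrim_le_zero key
  unfold discrim at hd
  nlinarith

private lemma sqrt_pi_le : √Real.pi ≤ 2 := by
  rw [Real.sqrt_le_left (by norm_num)]
  have := Real.pi_le_four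
  linarith

/-- NQP, properties of `NQ`. -/
theorem hNQP : StNqp := by
  intro W hW
  have hW0 : 0 < W := by linarith
  have hWi : 0 ≤ 1 / W := by positivity
  have hspi : 0 ≤ √Real.pi := Real.sqrt_nonneg _
  refine ⟨?_, ?_, ?_, ?_, ?_, ?_, ?_, ?_⟩
  · rintro F G ⟨hFm, hFn, -, hFi⟩ ⟨hGm, hGn, -, hGi⟩ hFG
    rw [NQ_eq, NQ_eq]
    refine mul_le_mul_of_nonneg_left ?_ hWi
    refine integral_mono (P_sq_integrable hFm hFn hFi W hW) (P_sq_integrable hGm hGn hGi W hW)
      fun c => ?_
    refine pow_le_pow_left₀ (P_nonneg hFn W c) ?_ 2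
    refine integral_mono (FE_integrable hFi W c) (FE_integrable hGi W c) fun s => ?_
    exact mul_le_mul_of_nonneg_right (hFG s) (E_nonneg W c s)
  · intro ι s F hF
    have hint : ∀ i ∈ s, Integrable (fun c => P W (F i) c ^ 2) := fun i hi =>
      P_sq_integrable (hF i hi).1 (hF i hi).2.1 (hF i hi).2.2.2 W hW
    have hPs : ∀ c, P W (fun x => ∑ i ∈ s, F i x) c = ∑ i ∈ s, P W (F i) c := by
      intro c
      unfold P
      rw [← integral_finsetSum s fun i hi => FE_integrable (hF i hi).2.2.2 W c]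
      refine integral_congr_ae (Filter.Eventually.of_forall fun x => ?_)
      simp only
      rw [Finset.sum_mul]
    have hsumNF : NF (fun x => ∑ i ∈ s, F i x) := by
      refine ⟨?_, fun x => Finset.sum_nonneg fun i hi => (hF i hi).2.1 x, ?_, ?_⟩
      · exact Finset.measurable_sum _ fun i hi => (hF i hi).1
      · choose! B hB using fun i hi => (hF i hi).2.2.1
        exact ⟨∑ i ∈ s, B i, fun x => Finset.sum_le_sum fun i hi => hB i hi x⟩
      · exact integrable_finsetSum s fun i hi => (hF i hi).2.2.2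
    rw [NQ_eq]
    simp only [NQ_eq]
    rw [← Finset.mul_sum, ← integral_finsetSum s hint]
    have h1 : ∫ c, P W (fun x => ∑ i ∈ s, F i x) c ^ 2 ≤
        ∫ c, (s.card : ℝ) * ∑ i ∈ s, P W (F i) c ^ 2 := by
      refine integral_mono (P_sq_integrable hsumNF.1 hsumNF.2.1 hsumNF.2.2.2 W hW)
        ((integrable_finsetSum s hint).const_mul _) fun c => ?_
      simp only
      rw [hPs c]
      exact sq_sum_le_card_mul_sum_sq
    rw [integral_const_mul] at h1
    calc 1 / W * ∫ c, P W (fun x => ∑ i ∈ s, F i x) c ^ 2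
        ≤ 1 / W * ((s.card : ℝ) * ∫ c, ∑ i ∈ s, P W (F i) c ^ 2) :=
          mul_le_mul_of_nonneg_left h1 hWi
      _ = (s.card : ℝ) * (1 / W * ∫ c, ∑ i ∈ s, P W (F i) c ^ 2) := by ring
  · intro A B M hA hB hM hAM
    have hAB := mul_NF hA hB
    have hA2 := sq_NF hA
    have hB2 := sq_NF hB
    have hP2 := P_integrable hB2.1 hB2.2.1 hB2.2.2.2 W hW
    rw [NQ_eq]
    have h1 : ∫ c, P W (fun s => A s * B s) c ^ 2 ≤ ∫ c, M * P W (fun s => B s ^ 2) c := by
      refine integral_mono (P_sq_integrable hAB.1 hAB.2.1 hAB.2.2.2 W hW) (hP2.const_mul M)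
        fun c => ?_
      have h2 := cs_weight A B (E W c) (E_nonneg W c) (FE_integrable hA2.2.2.2 W c)
        (FE_integrable hB2.2.2.2 W c) (FE_integrable hAB.2.2.2 W c)
      refine le_trans h2 ?_
      exact mul_le_mul_of_nonneg_right (hAM c)
        (integral_nonneg fun s => mul_nonneg (sq_nonneg _) (E_nonneg W c s))
    rw [integral_const_mul, P_integral hB2.1 hB2.2.1 hB2.2.2.2 W hW] at h1
    have hI : 0 ≤ ∫ s, B s ^ 2 := integral_nonneg fun s => sq_nonneg _
    calc 1 / W * ∫ c, P W (fun s => A s * B s) c ^ 2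
        ≤ 1 / W * (M * (√Real.pi * W * ∫ s, B s ^ 2)) := mul_le_mul_of_nonneg_left h1 hWi
      _ = √Real.pi * (M * ∫ s, B s ^ 2) := by field_simp
      _ ≤ 2 * (M * ∫ s, B s ^ 2) :=
          mul_le_mul_of_nonneg_right sqrt_pi_le (mul_nonneg hM hI)
      _ = 2 * M * ∫ s, B s ^ 2 := by ring
  · rintro F ⟨hFm, hFn, -, hFi⟩
    have hP := P_integrable hFm hFn hFi W hW
    rw [NQ_eq]
    have h1 : ∫ c, P W F c ^ 2 ≤ ∫ c, (∫ s, F s) * P W F c := by
      refine integral_mono (P_sq_integrable hFm hFn hFi W hW) (hP.const_mul _) fun c => ?_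
      simp only [sq]
      exact mul_le_mul_of_nonneg_right (P_le hFn hFi W c) (P_nonneg hFn W c)
    rw [integral_const_mul, P_integral hFm hFn hFi W hW] at h1
    calc 1 / W * ∫ c, P W F c ^ 2
        ≤ 1 / W * ((∫ s, F s) * (√Real.pi * W * ∫ s, F s)) := mul_le_mul_of_nonneg_left h1 hWi
      _ = √Real.pi * (∫ s, F s) ^ 2 := by field_simp
      _ ≤ 2 * (∫ s, F s) ^ 2 := mul_le_mul_of_nonneg_right sqrt_pi_le (sq_nonneg _)
  · intro F hF
    have hF2 := sq_NF hF
    have hP2 := P_integrable hF2.1 hF2.2.1 hF2.2.2.2 W hW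
    obtain ⟨hFm, hFn, -, hFi⟩ := hF
    rw [NQ_eq]
    have h1 : ∫ c, P W F c ^ 2 ≤ ∫ c, (√Real.pi * W) * P W (fun s => F s ^ 2) c := by
      refine integral_mono (P_sq_integrable hFm hFn hFi W hW) (hP2.const_mul _) fun c => ?_
      have h2 := cs_weight (fun _ => 1) F (E W c) (E_nonneg W c)
        (by simpa using E_integrable W c hW) (FE_integrable hF2.2.2.2 W c)
        (by simpa using FE_integrable hFi W c)
      simp only [one_mul, one_pow] at h2
      rw [E_int W c hW] at h2
      exact h2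
    rw [integral_const_mul, P_integral hF2.1 hF2.2.1 hF2.2.2.2 W hW] at h1
    have hI : 0 ≤ ∫ s, F s ^ 2 := integral_nonneg fun s => sq_nonneg _
    have hpi : √Real.pi * √Real.pi = Real.pi := Real.mul_self_sqrt Real.pi_pos.le
    calc 1 / W * ∫ c, P W F c ^ 2
        ≤ 1 / W * (√Real.pi * W * (√Real.pi * W * ∫ s, F s ^ 2)) :=
          mul_le_mul_of_nonneg_left h1 hWi
      _ = (√Real.pi * √Real.pi) * (W * ∫ s, F s ^ 2) := by field_simp
      _ = Real.pi * (W * ∫ s, F s ^ 2) := by rw [hpi]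
      _ ≤ 4 * (W * ∫ s, F s ^ 2) :=
          mul_le_mul_of_nonneg_right Real.pi_le_four (mul_nonneg hW0.le hI)
      _ = 4 * W * ∫ s, F s ^ 2 := by ring
  · intro F ξ
    rw [NQ_eq, NQ_eq]
    congr 1
    have h1 : ∀ c, P W (fun s => F (s - ξ)) c = P W F (c - ξ) := by
      intro c
      unfold P
      have h2 := integral_sub_right_eq_self (μ := volume)
        (fun y : ℝ => F y * E W c (y + ξ)) ξ
      have h3 : (fun s => F (s - ξ) * E W c s) =
          fun s => F (s - ξ) * E W c (s - ξ + ξ) := by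
        funext s
        rw [sub_add_cancel]
      rw [h3, h2]
      refine integral_congr_ae (Filter.Eventually.of_forall fun s => ?_)
      simp only
      congr 1
      unfold E
      congr 1
      ring
    simp only [h1]
    exact integral_sub_right_eq_self (fun c => P W F c ^ 2) ξ
  · intro F a
    rw [NQ_eq, NQ_eq]
    have h1 : ∀ c, P W (fun s => a * F s) c = a * P W F c := by
      intro c
      unfold P
      rw [← integral_const_mul]
      refine integral_congr_ae (Filter.Eventually.of_forall fun s => ?_)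
      simp only
      ring
    simp only [h1, mul_pow]
    rw [integral_const_mul]
    ring
  · intro F
    rw [NQ_eq]
    exact mul_nonneg hWi (integral_nonneg fun c => sq_nonneg _)

end Pool.Agent.Helper14.GW
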