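import Pool.Agent.Helper63.GW.StB

set_option autoImplicit false

namespace Pool.Agent.Helper14.GW

open Pool.Agent.Helper63.GW

private lemma core_part (ε : ℝ) (h0 : 0 < ε) (h1 : ε ≤ 1 / 20) (b : Fin 8 → ℝ)
    (hn : ∀ i, 0 ≤ b i) (hanti : ∀ i j : Fin 8, i ≤ j → b j ≤ b i)
    (hs : |∑ i, b i - 1| ≤ ε / 100) (hu : ∀ i, b i ≤ 7 / 20 - ε / 4) :
    29 / 100 ≤ b 2 ∨ ∃ (S : Finset (Fin 8)) (k : Fin 8), k ∉ S ∧ ε / 100 ≤ b k ∧
      1 / 5 - ε ≤ ∑ i ∈ S, b i ∧ ∑ i ∈ S, b i + b k ≤ (∑ i, b i) / 2 := by
  have hsum : ∑ i, b i = b 0 + b 1 + b 2 + b 3 + b 4 + b 5 + b 6 + b 7 := Fin.sum_univ_eight b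
  have s1 : ∀ i : Fin 8, ∑ j ∈ ({i} : Finset (Fin 8)), b j = b i := fun i => by simp
  have s2 : ∀ i j : Fin 8, i ≠ j → ∑ l ∈ ({i, j} : Finset (Fin 8)), b l = b i + b j :=
    fun i j h => Finset.sum_pair h
  have a01 := hanti 0 1 (by decide)
  have a12 := hanti 1 2 (by decide)
  have a23 := hanti 2 3 (by decide)
  have a34 := hanti 3 4 (by decide)
  have a45 := hanti 4 5 (by decide)
  have a56 := hanti 5 6 (by decide)
  have a67 := hanti 6 7 (by decide)
  have u0 := hu 0
  have n7 := hn 7
  rw [abs_le] at hs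
  obtain ⟨hs1, hs2⟩ := hs
  rw [hsum] at hs1 hs2 ⊢
  -- final constructors
  have R1 : ∀ i k : Fin 8, k ≠ i → ε / 100 ≤ b k → 1 / 5 - ε ≤ b i →
      b i + b k ≤ (b 0 + b 1 + b 2 + b 3 + b 4 + b 5 + b 6 + b 7) / 2 →
      ∃ (S : Finset (Fin 8)) (k : Fin 8), k ∉ S ∧ ε / 100 ≤ b k ∧
      1 / 5 - ε ≤ ∑ i ∈ S, b i ∧ ∑ i ∈ S, b i + b k ≤
        (b 0 + b 1 + b 2 + b 3 + b 4 + b 5 + b 6 + b 7) / 2 := by
    intro i k hik hk hi hik2
    refine ⟨{i}, k, by simpa using hik, hk, ?_, ?_⟩
    · rw [s1]; exact hi
    · rw [s1]; exact hik2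
  have R2 : ∀ i j k : Fin 8, i ≠ j → k ≠ i → k ≠ j → ε / 100 ≤ b k → 1 / 5 - ε ≤ b i + b j →
      b i + b j + b k ≤ (b 0 + b 1 + b 2 + b 3 + b 4 + b 5 + b 6 + b 7) / 2 →
      ∃ (S : Finset (Fin 8)) (k : Fin 8), k ∉ S ∧ ε / 100 ≤ b k ∧
      1 / 5 - ε ≤ ∑ i ∈ S, b i ∧ ∑ i ∈ S, b i + b k ≤
        (b 0 + b 1 + b 2 + b 3 + b 4 + b 5 + b 6 + b 7) / 2 := by
    intro i j k hij hik hjk hk hi hik2
    refine ⟨{i, j}, k, by simp [hik, hjk], hk, ?_, ?_⟩
    · rw [s2 i j hij]; exact hi
    · rw [s2 i j hij]; exact hik2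
  by_cases h2 : 1 / 5 - ε / 2 ≤ b 2
  · by_cases h3 : ε / 100 ≤ b 3
    · right
      exact R1 2 3 (by decide) h3 (by linarith) (by linarith)
    · push Not at h3
      left
      linarith
  · push Not at h2
    by_cases h4 : 1 / 5 - ε / 2 ≤ b 0
    · right
      by_cases hk : ∃ k : Fin 8, k ≠ 0 ∧ ε / 100 ≤ b k ∧
          b 0 + b k ≤ (b 0 + b 1 + b 2 + b 3 + b 4 + b 5 + b 6 + b 7) / 2
      · obtain ⟨k, hk0, hk1, hk2⟩ := hk
        exact R1 0 k hk0 hk1 (by linarith) hk2
      · push Not at hk
        have c2 : ε / 100 ≤ b 2 := by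
          by_contra hc
          push Not at hc
          linarith
        have d2 := hk 2 (by decide) c2
        have c3 : ε / 100 ≤ b 3 := by
          by_contra hc
          push Not at hc
          linarith
        have d3 := hk 3 (by decide) c3
        by_cases c4 : ε / 100 ≤ b 4
        · exact R2 2 3 4 (by decide) (by decide) (by decide) c4 (by linarith) (by linarith)
        · push Not at c4
          exact R1 1 3 (by decide) c3 (by linarith) (by linarith)
    · push Not at h4
      right
      have c5 : ε / 100 ≤ b 5 := by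
        by_contra hc
        push Not at hc
        linarith
      by_cases h5 : b 0 + b 1 < 1 / 5 - ε / 2
      · by_cases h6 : 1 / 5 - ε / 2 ≤ b 0 + b 1 + b 2
        · have e : ∑ i ∈ ({0, 1, 2} : Finset (Fin 8)), b i = b 0 + b 1 + b 2 := by
            rw [Finset.sum_insert (by decide), Finset.sum_insert (by decide),
              Finset.sum_singleton]; ring
          refine ⟨{0, 1, 2}, 3, by decide, by linarith, ?_, ?_⟩
          · rw [e]; linarith
          · rw [e]; linarith
        · push Not at h6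
          by_cases h7 : 1 / 5 - ε / 2 ≤ b 0 + b 1 + b 2 + b 3
          · have e : ∑ i ∈ ({0, 1, 2, 3} : Finset (Fin 8)), b i = b 0 + b 1 + b 2 + b 3 := by
              rw [Finset.sum_insert (by decide), Finset.sum_insert (by decide),
                Finset.sum_insert (by decide), Finset.sum_singleton]; ring
            refine ⟨{0, 1, 2, 3}, 4, by decide, by linarith, ?_, ?_⟩
            · rw [e]; linarith
            · rw [e]; linarith
          · push Not at h7
            by_cases h8 : 1 / 5 - ε / 2 ≤ b 0 + b 1 + b 2 + b 3 + b 4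
            · have e : ∑ i ∈ ({0, 1, 2, 3, 4} : Finset (Fin 8)), b i =
                  b 0 + b 1 + b 2 + b 3 + b 4 := by
                rw [Finset.sum_insert (by decide), Finset.sum_insert (by decide),
                  Finset.sum_insert (by decide), Finset.sum_insert (by decide),
                  Finset.sum_singleton]; ring
              refine ⟨{0, 1, 2, 3, 4}, 5, by decide, by linarith, ?_, ?_⟩
              · rw [e]; linarith
              · rw [e]; linarith
            · push Not at h8
              by_cases h9 : 1 / 5 - ε / 2 ≤ b 0 + b 1 + b 2 + b 3 + b 4 + b 5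
              · have e : ∑ i ∈ ({0, 1, 2, 3, 4, 5} : Finset (Fin 8)), b i =
                    b 0 + b 1 + b 2 + b 3 + b 4 + b 5 := by
                  rw [Finset.sum_insert (by decide), Finset.sum_insert (by decide),
                    Finset.sum_insert (by decide), Finset.sum_insert (by decide),
                    Finset.sum_insert (by decide), Finset.sum_singleton]; ring
                refine ⟨{0, 1, 2, 3, 4, 5}, 6, by decide, by linarith, ?_, ?_⟩
                · rw [e]; linarith
                · rw [e]; linarith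
              · push Not at h9
                exfalso
                linarith
      · push Not at h5
        by_cases h6 : b 0 + b 1 ≤ 3 / 10
        · exact R2 0 1 5 (by decide) (by decide) (by decide) c5 (by linarith) (by linarith)
        · push Not at h6
          by_cases h7 : 1 / 5 - ε / 2 ≤ b 3 + b 4
          · exact R2 3 4 5 (by decide) (by decide) (by decide) c5 (by linarith) (by linarith)
          · push Not at h7
            exact R2 0 1 5 (by decide) (by decide) (by decide) c5 (by linarith) (by linarith)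

/-- PART. -/
theorem hPART : StPart := by
  intro ε h0 h1
  refine ⟨ε / 100, ε / 100, by positivity, by positivity, fun a ha hs ha4 => ?_⟩
  by_cases hfirst : ∃ i : Fin 8, 4 ≤ (i : ℕ) ∧ 7 / 20 - ε / 4 ≤ a i
  · exact Or.inl hfirst
  right
  push Not at hfirst
  have hu : ∀ i, a i ≤ 7 / 20 - ε / 4 := by
    intro i
    rcases Nat.lt_or_ge (i : ℕ) 4 with h | h
    · have := ha4 i h
      linarith
    · exact (hfirst i h).le
  let σ : Equiv.Perm (Fin 8) := Tuple.sort (fun i => - a i)
  have hσ : Monotone ((fun i => - a i) ∘ σ) := Tuple.monotone_sort _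
  have hsum : ∑ i, a (σ i) = ∑ i, a i := Equiv.sum_comp σ a
  have hcore := core_part ε h0 h1 (fun i => a (σ i)) (fun i => ha _)
    (fun i j hij => by
      have := hσ hij
      simp only [Function.comp_apply] at this
      linarith) (by rw [hsum]; exact hs) (fun i => hu _)
  rcases hcore with h2 | ⟨S, k, hkS, hk, hS1, hS2⟩
  · left
    have h21 : a (σ 2) ≤ a (σ 1) := by
      have := hσ (show (1 : Fin 8) ≤ 2 by decide)
      simp only [Function.comp_apply] at this
      linarith
    have h10 : a (σ 1) ≤ a (σ 0) := by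
      have := hσ (show (0 : Fin 8) ≤ 1 by decide)
      simp only [Function.comp_apply] at this
      linarith
    have hbig : ∀ i : Fin 8, 29 / 100 ≤ a i → 4 ≤ (i : ℕ) := by
      intro i hi
      by_contra hc
      push Not at hc
      have := ha4 i hc
      linarith
    exact ⟨σ 0, σ 1, σ 2, fun h => absurd (σ.injective h) (by decide),
      fun h => absurd (σ.injective h) (by decide), fun h => absurd (σ.injective h) (by decide),
      hbig _ (by linarith), hbig _ (by linarith), hbig _ h2, by linarith, by linarith, h2⟩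
  · right
    have hm : ∑ i ∈ S.map σ.toEmbedding, a i = ∑ i ∈ S, a (σ i) := Finset.sum_map _ _ _
    refine ⟨S.map σ.toEmbedding, σ k, ?_, hk, ?_, ?_⟩
    · simpa using hkS
    · rw [hm]; exact hS1
    · rw [hm, ← hsum]; exact hS2

end Pool.Agent.Helper14.GW
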